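import Pool.Agent.L7h94.MWG.Main

/-!
# The monodromy-weight conjecture for the part of the cohomology generated in low degrees

`K` is a finite extension of `ℚ_p` and `ℓ ≠ p`. For a smooth proper variety `X` over `K` and a degree `m`
let `A^m ⊆ H^m(X)` be the part generated by induced classes: it is the degree `m` part of the smallest
subspace of the cohomology of `X` which is stable under the cup product and contains the images of all
maps `H^j(Y)(-c) → H^(j + 2 c)(X)` from a given class `C`, which commute with the actions of the Weil
group, for the smooth proper varieties `Y` and degrees `j` for which the monodromy-weight conjecture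
is known: `j ≤ 2`, or `Y` a curve, a surface, an abelian variety, a complete intersection in a toric
variety, ... More generally one may take the images of mw pure subrepresentations of the `H^j(Y)`.
Typical maps are those given by algebraic correspondences (pullbacks, Gysin maps, Künneth components
of Chern classes of bundles on `X × Y`).

We show:

* If `A^m = H^m(X)`, then `H^m(X)` is mw pure of weight `m`.
* In general, let `B` be the polarization form on `H^m(X)`. If its restriction to `A^m` is
  nondegenerate, then `A^m` is mw pure, and `H^m(X)` is mw pure if and only if the orthogonal
  complement of `A^m` is mw pure. If `X` is projective and `C` is the class of the maps given by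
  algebraic correspondences then the restriction is nondegenerate by Hodge theory, since `A^m` is
  defined by a sub-Hodge structure of `H^m(X(ℂ), ℚ)`.

So the conjecture is true for the following cohomology groups. (1) All `H^m(X)` if the ring `H^*(X)` is
generated by `H^1(X)`, `H^2(X)` and classes of algebraic cycles, for example for the hyperkähler
varieties of `K3^[2]`-type. (2) The smallest part `N^c H^m(X)` of the coniveau filtration with
`m - 2 c ≤ 2`, for all projective `X`; and all of `H^m(X)` if it is equal to this part, for example, by
Bloch and Srinivas, for all `m` if `dim X ≤ 4` and the zero-cycles on `X` are supported on a surface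
(rationally connected fourfolds, conic bundles over surfaces). (3) Smooth projective fine moduli spaces of
sheaves on curves and surfaces whose cohomology is generated by the Künneth components of the Chern
classes of the universal sheaf.

No splitting of the maps is used, and no standard conjecture. In the proof we show that the operators
`N^a` from weight `m + a` to weight `m - a` are surjective on `A^m`: the space `A^m` is spanned by
images of tensor products of mw pure representations, which are images of weight vectors of
representations of `sl(2)`. The bijectivity follows by duality.
-/

set_option autoImplicit false

universe u v w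

namespace Pool.Agent.Results.MP_cd312e_ag.GeneratedPart

open Pool.Agent.H914 Pool.Agent.Y143 Pool.Agent.Y163.MW Pool.Agent.L7h94.MWG

/-- **The monodromy-weight conjecture for the part generated by induced classes.** `T` is the
`ℓ`-adic cohomology of the smooth proper varieties over `K` with its known properties
(`T.IsLocal q`), `X` is one of them with the cup product `μ`, and `C` is a class of maps from the
cohomology of other varieties to the cohomology of `X`. Let `A = part T q X C μ m ⊆ H^m(X)` be the part
generated by the classes induced by maps in `C` from mw pure subspaces `S` of groups `H^j(Y)`.

(1) If `A = H^m(X)`, then the monodromy-weight conjecture holds for `H^m(X)`.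

(2) If `B` is a form on `H^m(X)` with the properties `IsForm` whose restriction to `A` is
nondegenerate, then `A` is mw pure of weight `m`, `H^m(X)` is the direct sum of `A` and its orthogonal
complement `S'`, both are stable, and the monodromy-weight conjecture holds for `H^m(X)` if and only if
`S'` is mw pure of weight `m`. -/
theorem result {K : Type u} [Field K] {Ω : Type w} [Field Ω] [CharZero Ω] [IsAlgClosed Ω]
    {T : Theory.{u, v, w} K Ω} {q : ℕ} (hq : 1 < q) (hT : T.IsLocal q) {X : SmVar.{u} K}
    {μ : (T.H X).V →ₗ[Ω] (T.H X).V →ₗ[Ω] (T.H X).V} (hμ : IsCup (T.H X) μ) (C : MapClass T X)
    (m : ℕ) :
    (part T q X C μ m = (T.H X).gr m → (T.H X).MWPure q m) ∧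
    ∀ B : (T.H X).V →ₗ[Ω] (T.H X).V →ₗ[Ω] Ω, IsForm (T.H X) q m B →
      NondegOn (part T q X C μ m) B →
      PureOn (T.H X) q m (part T q X C μ m) ∧
        ∃ S', IsComplement (T.H X) m B (part T q X C μ m) S' ∧
          ((T.H X).MWPure q m ↔ PureOn (T.H X) q m S') :=
  ⟨pure_of_generated hq hT hμ, fun _ hB hnd => part_pure hq hT hμ hB hnd⟩

end Pool.Agent.Results.MP_cd312e_ag.GeneratedPart
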