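import Pool.Agent.L7h62.ND.Pub

/-!
# The monodromy–weight conjecture near a degenerate fibre

`K` is a `p`-adic field with residue field of `q` elements, `X → B` is a proper family over `K`, smooth
outside a divisor with normal crossings, and `c ∈ B(K)` is a point through which `r` branches
`t 1 = 0, …, t r = 0` of the divisor pass; the family has a semistable degeneration along them. The
nearby cohomology `V` in degree `m` of the fibres near `c` carries a Frobenius `Φ`, the logarithm `N`
of the monodromy of `K` and the commuting logarithms `S i` of the monodromies around the branches
(`Family`). The cohomology of the fibre over a `K`-point `t` near `c` is `V` with the Frobenius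
`Φ * exp (∑ x i * S i)`, where `x i` are the values of the Kummer classes of the `t i`, and the
logarithm of the monodromy `N + ∑ v(t i) * S i`, where `v` is the valuation.

For a direction `y` of positive integers (the curve `t i = s ^ y i` through `c`), the degenerate fibre
of the family over the curve has smooth proper strata over `K`, whose cohomology groups form the first
page of the weight spectral sequence; it degenerates at the second page, and its filtration is the
monodromy filtration `W` of `∑ y i * S i`. The terms which contribute to `W k / W (k - 1)` form a
complex `A → B → C` (`Terms`); if the strata satisfy the monodromy–weight conjecture, the three terms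
are mw pure of weight `m + k` (`Terms.Pure`), and the middle cohomology is `W k / W (k - 1)`,
compatibly with Frobenius and monodromy (`Terms.Computes`). This is the condition
`GoodStrata F m y`.

Main theorem: there is a polynomial `P` in `r` variables of degree at most `c * dim V / 2` (where `m + c`
is a bound for the weights on `V`) such that the fibre with valuations `e` satisfies the
monodromy–weight conjecture if and only if `P(e) ≠ 0`, whatever the Kummer classes are. If the strata
for one direction `y` satisfy the conjecture, then `P` does not vanish at the multiples of `y`, except
for at most `c * dim V / 2` of them.
-/

set_option autoImplicit false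

namespace Pool.Agent.Results.MP_cd312e_ag.NearDegenerateFibres

open Module Pool.Agent.Y143 Pool.Agent.L7h62.ND

theorem result : ∀ (Ω V : Type) [Field Ω] [CharZero Ω] [IsAlgClosed Ω] [AddCommGroup V]
    [Module Ω V] [FiniteDimensional Ω V] (q : ℕ), 1 < q → ∀ (m : ℤ) (r c : ℕ)
    (F : Family Ω V q r), WeightsAtMost F m c →
    ∃ P : MvPolynomial (Fin r) Ω, 2 * P.totalDegree ≤ c * finrank Ω V ∧ Detects F m P ∧
      ∀ y : Fin r → Ω, GoodStrata F m y →
        {z : Ω | MvPolynomial.eval (z • y) P = 0}.Finite ∧
          2 * {z : Ω | MvPolynomial.eval (z • y) P = 0}.ncard ≤ c * finrank Ω V :=
  main'

end Pool.Agent.Results.MP_cd312e_ag.NearDegenerateFibres
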