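import Pool.Agent.L7h94.MWC.Main

/-!
# The monodromy-weight conjecture and the poles of the local L-factors at one point

`K` is a finite extension of `ℚ_p` with residue field with `q` elements, `ℓ ≠ p`. The
monodromy-weight conjecture implies that for a smooth proper variety `Z` over `K` the weights of the
invariants of inertia on `H^j(Z)` are at most `j`, so the local L-factor of `H^j(Z)` has no pole at
`s = n` if `2 n > j`. We show that the conjecture is equivalent to a small part of this: it suffices
that for the varieties `Z` of odd dimension `d` the L-factor of the middle cohomology `H^d(Z)` has no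
pole at the central point `s = (d + 1) / 2` of its functional equation. More generally, for a fixed
integer `a = c + 1 ≥ 1` it suffices to consider the point `s = (d + a) / 2` for the varieties of
dimension `d ≡ a (mod 2)`. For `c = 1` this is the point `s = d / 2 + 1`, `d` even, where the order of
the pole of the L-function of `H^d(Z)` is predicted by the Tate conjecture.

There is a version for each single variety `X`: it suffices to consider the products
`X^(c + 1) × E^b × A` where `E` is one Tate curve and `A` runs over the abelian varieties with
potentially good reduction.

The vanishing of the invariants of the Galois group on `H^(2 n - 1)(Z)(n)` means that the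
group `H^(2 n - 1)(Z, ℚ_ℓ / ℤ_ℓ (n))^G` is finite (for abelian varieties and `n = 1` this is the
finiteness of the torsion over a local field). So the conjecture for all `X` is equivalent to the
finiteness of these groups for all `Z`, all `n` and all finite extensions of `K`.

Proof. If the conjecture is false for `X`, there is a string of `N` in the cohomology of `X` whose
mean weight is too large, by an integer `e > 0`. The power `X^(c + 1)` has a string whose mean weight
is too large by `(c + 1) e`, and by multiplication with the Tate curve its length can be changed
arbitrarily; so there is a string of length `(c + 1) (e - 1) + 1` for `X^(c + 1) × E^b`. Its last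
vector is killed by `N`, and its weight exceeds the degree by `c + 1`. By the theorem of Honda and
Tate the Frobenius eigenvalue becomes a power of `q` after multiplication with a class on an abelian
variety with potentially good reduction. Multiplication with `H^0` or `H^2` of the Tate curve leads
to the middle degree.
-/

set_option autoImplicit false

universe u v w

namespace Pool.Agent.Results.MP_cd312e_ag.PolesAtFixedDistance

open Pool.Agent.H914 Pool.Agent.Y143 Pool.Agent.Y163.MW Pool.Agent.L7h94.MWC

section

variable {K : Type u} [Field K] {Ω : Type w} [Field Ω] [CharZero Ω]

/-- Let `d` be the dimension of `Z`. If `d + c + 1 = 2 n` is even, `q ^ n` is not an eigenvalue of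
`F` on the kernel of `N` on `H^d(Z)` (`NoPole`): the local L-factor of `H^d(Z)` has no pole at
`s = (d + c + 1) / 2`. -/
def NoPoleAt (T : Theory.{u, v, w} K Ω) (q c : ℕ) (Z : SmVar.{u} K) : Prop :=
  ∀ n : ℕ, Z.dim + (c + 1) = 2 * n → NoPole T q Z Z.dim n

end

/-- **The monodromy-weight conjecture is equivalent to the absence of a pole of the local L-factors
at one point.** `T` is the `ℓ`-adic cohomology of the smooth proper varieties over `K` with its known
properties (`T.IsLocal q`), `E` is a Tate curve, and `𝒢` is a set of varieties with potentially good
reduction with the property of Honda and Tate (for example all abelian varieties with potentially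
good reduction). Let `c ≥ 0`.

(1) For every variety `X` the conjecture holds in all degrees if and only if for all `b` and all
`A ∈ 𝒢` the local L-factor of `H^d(Z)`, `Z = X^(c + 1) × E^b × A`, `d = dim Z ≡ c + 1 (mod 2)`, has no
pole at `(d + c + 1) / 2`.

(2) The conjecture holds for all varieties if and only if the local L-factors of `H^d(Z)` have no
pole at `(d + c + 1) / 2`, for all varieties `Z` with `d = dim Z ≡ c + 1 (mod 2)`.

(3) The conjecture holds for all varieties if and only if for all varieties `Z` and `j < 2 n` the
Galois groups of finite extensions of `K` have no nonzero invariants on `H^j(Z)(n)`. -/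
theorem result {K : Type u} [Field K] {Ω : Type w} [Field Ω] [CharZero Ω] [IsAlgClosed Ω]
    {T : Theory.{u, v, w} K Ω} {q : ℕ} (hq : 1 < q) (hT : T.IsLocal q) {E : SmVar.{u} K}
    (hE : IsTateCurve T q E) {𝒢 : Set (SmVar.{u} K)} (h𝒢 : IsHondaTate T q 𝒢) (c : ℕ) :
    (∀ X : SmVar.{u} K, (∀ m, (T.H X).MWPure q m) ↔
      ∀ (b : ℕ), ∀ A ∈ 𝒢, NoPoleAt T q c ((times (pow X c) E b).prod A)) ∧
    ((∀ (X : SmVar.{u} K) m, (T.H X).MWPure q m) ↔ ∀ Z : SmVar.{u} K, NoPoleAt T q c Z) ∧
    ((∀ (X : SmVar.{u} K) m, (T.H X).MWPure q m) ↔
      ∀ (Z : SmVar.{u} K) (j n : ℕ), j < 2 * n → NoInvariants T q Z j n) := by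
  refine ⟨fun X => criterion hq hT hE h𝒢 c X, (criterion_all hq hT hE h𝒢 c).1,
    (criterion_all hq hT hE h𝒢 c).2⟩

end Pool.Agent.Results.MP_cd312e_ag.PolesAtFixedDistance
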