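import Pool.Agent.L7h98.MW.Total
import Pool.Agent.Y954.MW.B1

/-!
# The `ℓ`-adic monodromy-weight conjecture: weights, Hodge numbers and maximal monodromy

`K` is a finite extension of `ℚ_p` with residue field with `q` elements, `ℓ ≠ p`, `X` a smooth proper
variety over `K`. For `H^m(X_{\bar K}, ℚ_ℓ)` the second moments of the monodromy, of the weights,
of the slopes (of the Hyodo-Kato cohomology) and of the Hodge numbers are compared:

`2 ∑ k rank (N_ℓ ^ k) ≤ ∑ (w - m)² ≤ ∑ (2 λ - m)² ≤ ∑ (a - b)² h^(a,b)`.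

The first term belongs to the `ℓ`-adic cohomology, the last two to the `p`-adic one. The link is
the independence of `ℓ` (`ℓ = p` included) of the zeta function of the Frobenius (Ochiai, Saito).
For the `p`-adic cohomology this is the starting result `MP_d037d4_ag/MaximalMonodromy`.
-/

set_option autoImplicit false

open Module Filter Topology

universe u v w v' w'

namespace Pool.Agent.Results.MP_cd312e_ag.SlopesAndHodgeNumbers

open Pool.Agent.H914 Pool.Agent.Y143 Pool.Agent.Y163.MW Pool.Agent.Y163.MX Pool.Agent.L7h98.MW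

section

variable {K : Type u} [Field K] {Ω : Type w} [Field Ω] [CharZero Ω] {Ω' : Type w'} [Field Ω']
  [CharZero Ω']

/-- The sandwich for `H^m(X)`: `2 ∑ k rank (N ^ k)` (`rankMoment`, for the `ℓ`-adic theory `T`) is at
most the sum of the `(w - m)²` (`weightMoment`), which is the same number for `T` and for the `p`-adic
theory `T'`, at most the sum of the `(2 λ - m)²` over the slopes (`newtonMoment`), at most the sum of
the `(a - b)² h^(a,b)` (`hodgeMoment`). The `p`-adic monodromy also satisfies the inequality. -/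
def Sandwich (T : Theory.{u, v, w} K Ω) (T' : PTheory.{u, v', w'} K Ω') (q : ℕ) (X : SmVar.{u} K)
    (m : ℕ) : Prop :=
  (T.H X).rankMoment m ≤ (T.H X).weightMoment q m ∧
    (T'.H X).rankMoment m ≤ (T.H X).weightMoment q m ∧
    (T.H X).weightMoment q m = (T'.H X).weightMoment q m ∧
    ((T.H X).weightMoment q m : ℝ) ≤ newtonMoment (T'.H X) T'.val m ∧
    newtonMoment (T'.H X) T'.val m ≤ (hodgeMoment m (T'.hodge X m) : ℝ)

/-- The number of the Frobenius eigenvalues on the graded pieces of the monodromy filtration of the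
`ℓ`-adic `H^m(X)` whose weight is not the expected one is at most
`∑ (a - b)² h^(a,b) - 2 ∑ k rank (N ^ k)`. -/
def FewWrong (T : Theory.{u, v, w} K Ω) (T' : PTheory.{u, v', w'} K Ω') (q : ℕ) (X : SmVar.{u} K)
    (m : ℕ) : Prop :=
  ∀ M : ℤ → Submodule Ω (T.H X).V, IsMonodromyFiltrationOn ((T.H X).gr m) (T.H X).N M →
    (finrank Ω ((T.H X).gr m) : ℤ) - rightDeg (T.H X) q m M ≤
      hodgeMoment m (T'.hodge X m) - (T.H X).rankMoment m

/-- If `∑ (a - b)² h^(a,b) ≤ 2 ∑ k rank (N ^ k) + 1` for the `ℓ`-adic monodromy, then the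
monodromy-weight conjecture holds for the `ℓ`-adic `H^m(X)`; if even
`∑ (a - b)² h^(a,b) ≤ 2 ∑ k rank (N ^ k)`, the part of `H^m(X)` of weight `2 a` has dimension
`h^(a, m - a)` for every `a`, and there are no other weights. -/
def MaximalCase (T : Theory.{u, v, w} K Ω) (T' : PTheory.{u, v', w'} K Ω') (q : ℕ)
    (X : SmVar.{u} K) (m : ℕ) : Prop :=
  (hodgeMoment m (T'.hodge X m) ≤ (T.H X).rankMoment m + 1 → (T.H X).MWPure q m) ∧
  (hodgeMoment m (T'.hodge X m) ≤ (T.H X).rankMoment m →
    (∀ a : ℕ, finrank Ω ((T.H X).exc q m (2 * (a : ℤ) - m)) = T'.hodge X m a) ∧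
    (∀ c : ℤ, (∀ a : ℕ, c ≠ 2 * (a : ℤ)) → finrank Ω ((T.H X).exc q m (c - m)) = 0))

/-- If the `p`-adic monodromy is maximal, `∑ (a - b)² h^(a,b) ≤ 2 ∑ k rank (N_p ^ k)`, then the part
of weight `2 a` of the `ℓ`-adic `H^m(X)` has dimension `h^(a, m - a)` for every `a`, and the
monodromy-weight conjecture holds for the `ℓ`-adic `H^m(X)` if and only if the numbers
`2 ∑ k rank (N ^ k)` are the same for the `ℓ`-adic and the `p`-adic monodromy. -/
def PAdicMaximal (T : Theory.{u, v, w} K Ω) (T' : PTheory.{u, v', w'} K Ω') (q : ℕ)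
    (X : SmVar.{u} K) (m : ℕ) : Prop :=
  hodgeMoment m (T'.hodge X m) ≤ (T'.H X).rankMoment m →
    (∀ a : ℕ, finrank Ω ((T.H X).exc q m (2 * (a : ℤ) - m)) = T'.hodge X m a) ∧
    ((T.H X).MWPure q m ↔ (T.H X).rankMoment m = (T'.H X).rankMoment m)

/-- The inertia invariants of the powers of `X`, if the monodromy is not trivial: the quotient of
the dimension of the inertia invariants of the whole cohomology of `X^(n + 1)` (`inv`) and of the
dimension predicted by the weights (`pred`) tends to a limit `L`, at least one and at most the square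
root of `∑ (a - b)² h^(a,b)` (over all `a`, `b`) divided by `2 ∑ k rank (N ^ k)`; and `L = 1` if and only
if the monodromy-weight conjecture holds for `X`. -/
def InertiaInvariants (T : Theory.{u, v, w} K Ω) (T' : PTheory.{u, v', w'} K Ω') (q : ℕ)
    (X : SmVar.{u} K) : Prop :=
  (T.H X).N ≠ 0 → ∃ L : ℝ,
    Tendsto (fun n : ℕ => ((T.H (pow X n)).inv : ℝ) / ((T.H (pow X n)).pred q : ℝ)) atTop (𝓝 L) ∧
    1 ≤ L ∧
    L ≤ √(((∑ᶠ j : ℕ, hodgeMoment j (T'.hodge X j) : ℤ) : ℝ) / ((T.H X).totRankMoment : ℝ)) ∧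
    (L = 1 ↔ ∀ j, (T.H X).MWPure q j)

end

/-- **Weights, Hodge numbers and maximal monodromy for the `ℓ`-adic cohomology.** Let `X` be a smooth
proper variety over a finite extension `K` of `ℚ_p`, and `m ≤ 2 dim X`. Suppose that for `j ≠ m` the
characteristic polynomials of the Frobenius on the `ℓ`-adic and on the `p`-adic (Hyodo-Kato)
cohomology `H^j(X)` are the same polynomial with rational coefficients (for example because `H^j(X)`
is generated by algebraic cycles, as for all `j ≠ dim X` if `X` is a complete intersection in a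
projective space or in another flag variety; for `j > 2 dim X` both groups are zero). Then the
properties above hold for the `ℓ`-adic cohomology group `H^m(X)`.

Here `T` is the `ℓ`-adic cohomology of the smooth proper varieties over `K` (`T.IsLocal q`: the known
formal properties, in particular the weights of the Frobenius are integers), `T'` is the `p`-adic
theory (`T'.IsPLocal q`: the known properties, in particular the Newton polygon lies above the Hodge
polygon), and `hz` is the independence of `ℓ` of the zeta function of the Frobenius. -/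
theorem result {K : Type u} [Field K] {Ω : Type w} [Field Ω] [CharZero Ω] [IsAlgClosed Ω]
    {Ω' : Type w'} [Field Ω'] [CharZero Ω'] [IsAlgClosed Ω']
    {T : Theory.{u, v, w} K Ω} {T' : PTheory.{u, v', w'} K Ω'} {q : ℕ} (hq : 1 < q)
    (hT : T.IsLocal q) (hT' : T'.IsPLocal q)
    (hz : ∀ X, SameZeta (T.H X) (T'.H X) (2 * X.dim)) (X : SmVar.{u} K) (m : ℕ)
    (hm : m ≤ 2 * X.dim) (hX : ∀ j, j ≠ m → SamePoly (T.H X) (T'.H X) j) :
    SamePoly (T.H X) (T'.H X) m ∧ Sandwich T T' q X m ∧ FewWrong T T' q X m ∧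
      MaximalCase T T' q X m ∧ PAdicMaximal T T' q X m ∧ InertiaInvariants T T' q X := by
  classical
  have hR := hT.coh X
  have hR' := hT'.coh X
  have hsm : SamePoly (T.H X) (T'.H X) m :=
    same_of_others hR hR' hm (hz X) (fun j _ hjm => hX j hjm)
  have hall : ∀ j, SamePoly (T.H X) (T'.H X) j := fun j => by
    by_cases hj : j = m
    · rw [hj]; exact hsm
    · exact hX j hj
  have hrat' : ∀ j, RationalPoly (charP (T'.H X) j) := fun j => by
    obtain ⟨P, -, hP⟩ := hall j
    exact ⟨P, hP⟩
  have hsand : ∀ j, (T'.H X).rankMoment j ≤ (T'.H X).weightMoment q j ∧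
      ((T'.H X).weightMoment q j : ℝ) ≤ newtonMoment (T'.H X) T'.val j ∧
      newtonMoment (T'.H X) T'.val j ≤ (hodgeMoment j (T'.hodge X j) : ℝ) := fun j =>
    sandwich hq hR' (hrat' j) hT'.val (hT'.polygons X j)
  have hw : ∀ j, (T.H X).weightMoment q j = (T'.H X).weightMoment q j := fun j =>
    weight_same hq hR hR' (hall j)
  have hWH : ∀ j, (T.H X).weightMoment q j ≤ hodgeMoment j (T'.hodge X j) := by
    intro j
    have h1 := hsand j
    have h2 : ((T'.H X).weightMoment q j : ℝ) ≤ (hodgeMoment j (T'.hodge X j) : ℝ) :=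
      h1.2.1.trans h1.2.2
    rw [hw j]
    exact_mod_cast h2
  have hmom := Coh.moment_deg hq hR m
  refine ⟨hsm, ⟨hmom.1, ?_, hw m, ?_, (hsand m).2.2⟩, ?_, ?_, ?_, ?_⟩
  · rw [hw m]
    exact (hsand m).1
  · rw [hw m]
    exact (hsand m).2.1
  · intro M hM
    have h1 := wrong_le hq hR m hM
    have h2 := hWH m
    linarith
  · -- near maximal case
    refine ⟨fun h => ?_, fun h => ?_⟩
    · have h1 := hWH m
      have h2 := hmom.1
      have h3 := defect_even hq hR m
      refine hmom.2.1 ?_
      obtain ⟨k, hk⟩ := h3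
      omega
    · have h1 := hWH m
      have h2 := hmom.1
      have h3 : hodgeMoment m (T'.hodge X m) ≤ (T'.H X).weightMoment q m := by
        rw [← hw m]
        linarith
      obtain ⟨h4, h5⟩ := weights_of_eq hq hR' (hrat' m) hT'.val (hT'.polygons X m) h3
      refine ⟨fun a => ?_, fun c hc => ?_⟩
      · rw [exc_same hq hR hR' hsm]
        exact h5 a
      · rw [exc_same hq hR hR' hsm]
        exact no_other hq (fun α hα => let ⟨a, _, ha, _⟩ := h4 α hα; ⟨a, ha⟩) hR' c hc
  · intro h
    obtain ⟨-, -, h5⟩ := maximal hq hR' (hrat' m) hT'.val (hT'.polygons X m) h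
    refine ⟨fun a => ?_, ?_⟩
    · rw [exc_same hq hR hR' hsm]
      exact h5 a
    · have h1 := hWH m
      have h2 := (hsand m).1
      have h3 := hw m
      rw [← hmom.2]
      have h4 : (T.H X).weightMoment q m = (T'.H X).rankMoment m := by omega
      rw [h4]
  · intro hN
    have hpos := Coh.totRank_pos hq hR hN
    have hpos' : (0 : ℝ) < ((T.H X).totRankMoment : ℝ) := by exact_mod_cast hpos
    obtain ⟨ht1, ht2⟩ := Coh.moment_tot hq hR
    have ht1' : ((T.H X).totRankMoment : ℝ) ≤ ((T.H X).totWeightMoment q : ℝ) := by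
      exact_mod_cast ht1
    have hlim := index_law (Pool.Agent.Y954.MW.stB1 Pool.Agent.Y141.MW.stL) hT hq X hN
    have hWH' : (T.H X).totWeightMoment q ≤ ∑ᶠ j : ℕ, hodgeMoment j (T'.hodge X j) := by
      rw [totWeight_eq_sum hq hR]
      have hfin := hodge_finite hR' (fun j => hT'.polygons X j)
      have h0 : ∀ j, 0 ≤ (T.H X).weightMoment q j := fun j =>
        finsum_nonneg fun c => mul_nonneg (sq_nonneg _) (Nat.cast_nonneg _)
      refine finsum_le_finsum' (hfin.subset fun j hj => ?_) hfin hWH
      rw [Function.mem_support] at hj ⊢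
      intro h1
      have h2 := hWH j
      rw [h1] at h2
      exact hj (le_antisymm h2 (h0 j))
    have hWH'' : ((T.H X).totWeightMoment q : ℝ) ≤
        ((∑ᶠ j : ℕ, hodgeMoment j (T'.hodge X j) : ℤ) : ℝ) := by exact_mod_cast hWH'
    refine ⟨_, hlim, ?_, ?_, ?_⟩
    · rw [Real.one_le_sqrt, one_le_div hpos']
      exact ht1'
    · exact Real.sqrt_le_sqrt (div_le_div_of_nonneg_right hWH'' hpos'.le)
    · rw [← ht2, Real.sqrt_eq_one, div_eq_one_iff_eq hpos'.ne']
      constructor
      · intro h
        exact_mod_cast h.symm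
      · intro h
        exact_mod_cast h.symm

end Pool.Agent.Results.MP_cd312e_ag.SlopesAndHodgeNumbers
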